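import Mathlib
set_option maxHeartbeats 400000
namespace Pool.Agent.H.MP_8f9e48_lc

inductive Gen {X N : Type} (R : Set (ContextFreeRule X N)) : List (Symbol X N) → List X → Prop
  | nil : Gen R [] []
  | term (x : X) {s w} : Gen R s w → Gen R (.terminal x :: s) (x :: w)
  | nt (r : ContextFreeRule X N) {u s w} : r ∈ R → Gen R r.output u → Gen R s w →
      Gen R (.nonterminal r.input :: s) (u ++ w)

variable {X Y N M T : Type}

lemma Gen.split {R : Set (ContextFreeRule X N)} {s1 s2 : List (Symbol X N)} {w : List X}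
    (h : Gen R (s1 ++ s2) w) : ∃ w1 w2, w = w1 ++ w2 ∧ Gen R s1 w1 ∧ Gen R s2 w2 := by
  induction s1 generalizing w with
  | nil => exact ⟨[], w, rfl, .nil, h⟩
  | cons a s ih =>
    rw [List.cons_append] at h
    cases h with
    | term x h =>
      obtain ⟨w1, w2, rfl, h1, h2⟩ := ih h
      exact ⟨x :: w1, w2, rfl, .term x h1, h2⟩
    | nt r hr h0 h =>
      obtain ⟨w1, w2, rfl, h1, h2⟩ := ih h
      exact ⟨_, w2, (List.append_assoc _ _ _).symm, .nt r hr h0 h1, h2⟩

lemma gen_iff (g : ContextFreeGrammar X) (s : List (Symbol X g.NT)) (w : List X) :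
    g.Derives s (w.map Symbol.terminal) ↔ Gen (g.rules : Set _) s w := by
  constructor
  · intro h
    induction h using Relation.ReflTransGen.head_induction_on with
    | refl =>
      induction w with
      | nil => exact .nil
      | cons x w ih => exact .term x ih
    | head h1 _ ih =>
      obtain ⟨r, hr, h2⟩ := h1
      clear * - hr h2 ih
      induction h2 generalizing w with
      | head s =>
        obtain ⟨w1, w2, rfl, h1, h2⟩ := ih.split
        exact .nt r hr h1 h2
      | cons x _ ih2 =>
        cases ih with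
        | term y h => exact .term y (ih2 _ h)
        | nt r' hr' h0 h => exact .nt r' hr' h0 (ih2 _ h)
  · intro h
    induction h with
    | nil => exact .refl _
    | term x _ ih => exact ContextFreeGrammar.Derives.append_left ih [.terminal x]
    | @nt r u s w hr _ _ ih1 ih2 =>
      rw [List.map_append]
      refine ContextFreeGrammar.Produces.trans_derives ⟨r, hr, .head s⟩ ?_
      exact (ih1.append_right s).trans (ih2.append_left _)

def ms (fN : N → M) (fT : X → Y) : Symbol X N → Symbol Y M
  | .terminal x => .terminal (fT x)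
  | .nonterminal A => .nonterminal (fN A)

def mr (fN : N → M) (fT : X → Y) (r : ContextFreeRule X N) : ContextFreeRule Y M :=
  ⟨fN r.input, r.output.map (ms fN fT)⟩

lemma Gen.len {R : Set (ContextFreeRule X N)} (hR : ∀ r ∈ R, r.output ≠ []) {s w}
    (h : Gen R s w) : s.length ≤ w.length := by
  induction h with
  | nil => simp
  | term x _ ih => simpa using ih
  | nt r hr _ _ ih1 ih2 =>
    have := List.length_pos_of_ne_nil (hR r hr)
    simp only [List.length_cons, List.length_append]
    omega

lemma Gen.mem {R : Set (ContextFreeRule X N)} {s w} (h : Gen R s w) {x : X}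
    (hx : .terminal x ∈ s) : x ∈ w := by
  induction h with
  | nil => simp at hx
  | term y _ ih =>
    rcases List.mem_cons.mp hx with h | h
    · cases h; simp
    · exact List.mem_cons_of_mem _ (ih h)
  | nt r _ _ _ _ ih2 =>
    rcases List.mem_cons.mp hx with h | h
    · cases h
    · exact List.mem_append_right _ (ih2 h)

lemma Gen.mem' {R : Set (ContextFreeRule X N)} (D : Set X)
    (hR : ∀ r ∈ R, ∀ x, .terminal x ∈ r.output → x ∈ D) {s w} (h : Gen R s w)
    (hs : ∀ x, .terminal x ∈ s → x ∈ D) : ∀ x ∈ w, x ∈ D := by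
  induction h with
  | nil => simp
  | term y _ ih =>
    intro x hx
    rcases List.mem_cons.mp hx with rfl | h
    · exact hs _ (by simp)
    · exact ih (fun z hz => hs z (List.mem_cons_of_mem _ hz)) x h
  | nt r hr _ _ ih1 ih2 =>
    intro x hx
    rcases List.mem_append.mp hx with h | h
    · exact ih1 (hR r hr) x h
    · exact ih2 (fun z hz => hs z (List.mem_cons_of_mem _ hz)) x h

lemma Gen.map {R : Set (ContextFreeRule X N)} {R' : Set (ContextFreeRule X M)} (f : N → M)
    (hR : ∀ r ∈ R, mr f id r ∈ R') {s w} (h : Gen R s w) : Gen R' (s.map (ms f id)) w := by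
  induction h with
  | nil => exact .nil
  | term x _ ih => exact .term x ih
  | nt r hr _ _ ih1 ih2 => exact .nt (mr f id r) (hR r hr) ih1 ih2

lemma Gen.single {R : Set (ContextFreeRule X N)} {A : N} {w} :
    Gen R [.nonterminal A] w ↔ ∃ r ∈ R, r.input = A ∧ Gen R r.output w := by
  constructor
  · intro h
    generalize hs : [Symbol.nonterminal A] = s at h
    cases h with
    | nil => simp at hs
    | term x _ => simp at hs
    | nt r hr h1 h2 =>
      simp only [List.cons.injEq, Symbol.nonterminal.injEq] at hs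
      obtain ⟨rfl, rfl⟩ := hs
      cases h2
      exact ⟨r, hr, rfl, by simpa using h1⟩
  · rintro ⟨r, hr, rfl, h⟩
    simpa using Gen.nt r hr h .nil

def U (K : ContextFreeGrammar T) (a : T) (L : Set (List X)) : Prop :=
  ∃ (N : Type) (S : N) (R : Set (ContextFreeRule X N)) (fN : N → K.NT), R.Finite ∧
    fN S = K.initial ∧ (∀ r ∈ R, mr fN (fun _ => a) r ∈ K.rules) ∧
    L = {w | Gen R [.nonterminal S] w}

variable {K : ContextFreeGrammar T} {a : T}

lemma free_of {R : Set (ContextFreeRule X N)} {fN : N → K.NT} {fT : X → T}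
    (hK : ∀ r ∈ K.rules, r.output ≠ []) (h : ∀ r ∈ R, mr fN fT r ∈ K.rules) :
    ∀ r ∈ R, r.output ≠ [] := by
  intro r hr h2
  exact hK _ (h r hr) (by simp [mr, h2])

lemma ms_ms {Z P : Type} (f : N → M) (g : X → Y) (f' : M → P) (g' : Y → Z) (s : Symbol X N) :
    ms f' g' (ms f g s) = ms (f' ∘ f) (g' ∘ g) s := by cases s <;> rfl

lemma U.bound {L : Set (List ℕ)} (h : U K a L) : ∃ n, ∀ w ∈ L, ∀ x ∈ w, x ≤ n := by
  obtain ⟨N, S, R, fN, h1, -, -, rfl⟩ := h
  have h2 : (⋃ r ∈ R, {x : ℕ | Symbol.terminal x ∈ r.output}).Finite := by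
    refine h1.biUnion fun r _ => ?_
    exact (r.output.finite_toSet).preimage (f := fun x : ℕ => (Symbol.terminal x : Symbol ℕ N))
      (fun x _ y _ h => by cases h; rfl)
  obtain ⟨n, hn⟩ := h2.bddAbove
  refine ⟨n, fun w hw x hx => hn ?_⟩
  refine Gen.mem' _ (fun r hr y hy => ?_) hw (by simp) x hx
  exact Set.mem_biUnion hr hy

lemma U.ne_nil {L : Set (List X)} (hK : ∀ r ∈ K.rules, r.output ≠ []) (h : U K a L) :
    ∀ w ∈ L, w ≠ [] := by
  obtain ⟨N, S, R, fN, -, -, h3, rfl⟩ := h
  intro w hw h4
  have := Gen.len (free_of hK h3) hw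
  simp [h4] at this

def mk (f : Bool → X → Y) (b : Bool) : List X → List Y
  | [] => []
  | x :: w => f b x :: w.map (f false)

lemma mk_false (f : Bool → X → Y) (w : List X) : mk f false w = w.map (f false) := by
  cases w <;> rfl

lemma mk_append (f : Bool → X → Y) (b : Bool) {u : List X} (hu : u ≠ []) (w : List X) :
    mk f b (u ++ w) = mk f b u ++ mk f false w := by
  cases u with
  | nil => exact absurd rfl hu
  | cons x u => rw [mk_false]; simp [mk]

lemma U.mark {L : Set (List X)} (hK : ∀ r ∈ K.rules, r.output ≠ []) (h : U K a L)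
    (g : Bool → X → Y) : U K a (mk g true '' L) := by
  obtain ⟨N, S, R, fN, h1, h2, h3, rfl⟩ := h
  have hR := free_of hK h3
  let F : Bool → Symbol X N → Symbol Y (N × Bool) := fun b => ms (fun A => (A, b)) (g b)
  let R' : Set (ContextFreeRule Y (N × Bool)) :=
    (fun p : ContextFreeRule X N × Bool => ⟨(p.1.input, p.2), mk F p.2 p.1.output⟩) '' (R ×ˢ Set.univ)
  have hne : ∀ r ∈ R, ∀ u, Gen R r.output u → u ≠ [] := by
    intro r hr u hu h4
    have a1 := hu.len hR
    have a2 := List.length_pos_of_ne_nil (hR r hr)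
    simp [h4] at a1
    simp [a1] at a2
  have c1 : ∀ s w, Gen R s w → ∀ b, Gen R' (mk F b s) (mk g b w) := by
    intro s w h
    induction h with
    | nil => intro b; exact .nil
    | term x _ ih =>
      intro b
      have := ih false
      rw [mk_false, mk_false] at this
      exact .term _ this
    | nt r hr h0 _ ih1 ih2 =>
      intro b
      rw [mk_append g b (hne r hr _ h0)]
      have := ih2 false
      rw [mk_false F] at this
      exact .nt ⟨(r.input, b), mk F b r.output⟩ ⟨(r, b), ⟨hr, trivial⟩, rfl⟩ (ih1 b) this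
  have c2 : ∀ s' w', Gen R' s' w' → ∀ b s, s' = mk F b s → ∃ w, Gen R s w ∧ w' = mk g b w := by
    intro s' w' h
    induction h with
    | nil =>
      intro b s hs
      cases s with
      | nil => exact ⟨[], .nil, rfl⟩
      | cons _ _ => simp [mk] at hs
    | term y _ ih =>
      intro b s hs
      cases s with
      | nil => simp [mk] at hs
      | cons c s =>
        simp only [mk, List.cons.injEq] at hs
        obtain ⟨w, a1, a2⟩ := ih false s (by rw [mk_false]; exact hs.2)
        cases c with
        | terminal x =>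
          refine ⟨x :: w, .term x a1, ?_⟩
          have := hs.1
          simp only [F, ms, Symbol.terminal.injEq] at this
          rw [a2, this, mk_false]; rfl
        | nonterminal A => simp [F, ms] at hs
    | nt r' hr' _ _ ih1 ih2 =>
      intro b s hs
      obtain ⟨⟨r, b'⟩, ⟨hr, -⟩, rfl⟩ := hr'
      cases s with
      | nil => simp [mk] at hs
      | cons c s =>
        simp only [mk, List.cons.injEq] at hs
        obtain ⟨w, a1, a2⟩ := ih2 false s (by rw [mk_false]; exact hs.2)
        obtain ⟨u, a3, a4⟩ := ih1 b' r.output rfl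
        cases c with
        | terminal x => simp [F, ms] at hs
        | nonterminal A =>
          have := hs.1
          simp only [F, ms, Symbol.nonterminal.injEq, Prod.mk.injEq] at this
          obtain ⟨rfl, rfl⟩ := this
          exact ⟨u ++ w, .nt r hr a3 a1, by rw [mk_append g _ (hne r hr _ a3), a2, a4]⟩
  refine ⟨N × Bool, (S, true), R', fN ∘ Prod.fst, (h1.prod Set.finite_univ).image _, h2, ?_, ?_⟩
  · rintro _ ⟨⟨r, b⟩, ⟨hr, -⟩, rfl⟩
    convert h3 r hr using 1
    simp only [mr, Function.comp]
    congr 1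
    cases r.output with
    | nil => rfl
    | cons c s =>
      simp only [mk, List.map_cons, List.map_map, F, ms_ms]
      congr 1
      refine List.map_congr_left fun c _ => ?_
      simp only [Function.comp, ms_ms]
      rfl
  · ext w'
    constructor
    · rintro ⟨w, hw, rfl⟩
      exact c1 _ _ hw true
    · intro h
      obtain ⟨w, a1, a2⟩ := c2 _ _ h true [.nonterminal S] rfl
      exact ⟨w, a1, a2.symm⟩

lemma U.union {ι : Type} [Finite ι] {L : ι → Set (List X)} (h : ∀ i, U K a (L i)) :
    U K a (⋃ i, L i) := by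
  choose N S R fN h1 h2 h3 h4 using h
  let e : ∀ i, N i → Option (Σ i, N i) := fun i A => some ⟨i, A⟩
  let R' : Set (ContextFreeRule X (Option (Σ i, N i))) :=
    ⋃ i, (mr (e i) id '' R i ∪
      (fun r => ⟨none, r.output.map (ms (e i) id)⟩) '' {r ∈ R i | r.input = S i})
  have c2 : ∀ s' w, Gen R' s' w → ∀ i s, s' = List.map (ms (e i) id) s → Gen (R i) s w := by
    intro s' w h
    induction h with
    | nil =>
      intro i s hs
      cases s with
      | nil => exact .nil
      | cons _ _ => simp at hs
    | term y _ ih =>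
      intro i s hs
      cases s with
      | nil => simp at hs
      | cons c s =>
        simp only [List.map_cons, List.cons.injEq] at hs
        cases c with
        | terminal x =>
          have := hs.1
          simp only [ms, id, Symbol.terminal.injEq] at this
          rw [this]
          exact .term x (ih i s hs.2)
        | nonterminal A => simp [ms] at hs
    | nt r' hr' _ _ ih1 ih2 =>
      intro i s hs
      cases s with
      | nil => simp at hs
      | cons c s =>
        simp only [List.map_cons, List.cons.injEq] at hs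
        cases c with
        | terminal x => simp [ms] at hs
        | nonterminal A =>
          have h5 := hs.1
          simp only [ms, Symbol.nonterminal.injEq] at h5
          obtain ⟨j, hj⟩ := Set.mem_iUnion.mp hr'
          rcases hj with ⟨r, hr, rfl⟩ | ⟨r, hr, rfl⟩
          · simp only [mr, e, Option.some.injEq] at h5
            cases h5
            exact .nt r hr (ih1 _ r.output rfl) (ih2 _ s hs.2)
          · simp [e] at h5
  have c1 : ∀ i s w, Gen (R i) s w → Gen R' (s.map (ms (e i) id)) w := fun i s w h =>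
    h.map (e i) fun r hr => Set.mem_iUnion.mpr ⟨i, Or.inl ⟨r, hr, rfl⟩⟩
  refine ⟨Option (Σ i, N i), none, R', fun o => o.elim K.initial (fun p => fN p.1 p.2),
    Set.finite_iUnion fun i => ((h1 i).image _).union (((h1 i).subset fun r hr => hr.1).image _),
    rfl, ?_, ?_⟩
  · intro r' hr'
    obtain ⟨j, hj⟩ := Set.mem_iUnion.mp hr'
    rcases hj with ⟨r, hr, rfl⟩ | ⟨r, hr, rfl⟩
    · convert h3 j r hr using 1
      simp only [mr, List.map_map]
      congr 1
      exact List.map_congr_left fun c _ => by cases c <;> rfl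
    · convert h3 j r hr.1 using 1
      simp only [mr, List.map_map, hr.2, h2]
      congr 1
      exact List.map_congr_left fun c _ => by cases c <;> rfl
  · ext w
    simp only [Set.mem_iUnion, h4, Set.mem_ofPred_eq, Gen.single]
    constructor
    · rintro ⟨i, r, hr, h5, h6⟩
      exact ⟨_, Set.mem_iUnion.mpr ⟨i, Or.inr ⟨r, ⟨hr, h5⟩, rfl⟩⟩, rfl, c1 i _ _ h6⟩
    · rintro ⟨r', hr', h5, h6⟩
      obtain ⟨j, hj⟩ := Set.mem_iUnion.mp hr'
      rcases hj with ⟨r, hr, rfl⟩ | ⟨r, hr, rfl⟩
      · simp [mr, e] at h5
      · exact ⟨j, r, hr.1, hr.2, c2 _ _ h6 j _ rfl⟩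

lemma U.restrict (S : N) (R : Set (ContextFreeRule X N)) (fN : N → K.NT) (fT : X → T)
    (h1 : R.Finite) (h2 : fN S = K.initial) (h3 : ∀ r ∈ R, mr fN fT r ∈ K.rules)
    (D : Set X) (hD : ∀ x ∈ D, fT x = a) :
    U K a {w | Gen R [.nonterminal S] w ∧ ∀ x ∈ w, x ∈ D} := by
  let R' : Set (ContextFreeRule X N) := {r ∈ R | ∀ x, .terminal x ∈ r.output → x ∈ D}
  have c1 : ∀ s w, Gen R s w → (∀ x ∈ w, x ∈ D) → Gen R' s w := by
    intro s w h
    induction h with
    | nil => intro _; exact .nil
    | term x _ ih => intro h; exact .term x (ih fun y hy => h y (List.mem_cons_of_mem _ hy))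
    | nt r hr h0 _ ih1 ih2 =>
      intro h
      exact .nt r ⟨hr, fun x hx => h x (List.mem_append_left _ (h0.mem hx))⟩
        (ih1 fun y hy => h y (List.mem_append_left _ hy))
        (ih2 fun y hy => h y (List.mem_append_right _ hy))
  have c2 : ∀ s w, Gen R' s w → Gen R s w := by
    intro s w h
    induction h with
    | nil => exact .nil
    | term x _ ih => exact .term x ih
    | nt r hr _ _ ih1 ih2 => exact .nt r hr.1 ih1 ih2
  refine ⟨N, S, R', fN, h1.subset fun r hr => hr.1, h2, fun r hr => ?_, ?_⟩
  · convert h3 r hr.1 using 1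
    simp only [mr]
    congr 1
    refine List.map_congr_left fun c hc => ?_
    cases c with
    | terminal x => simp only [ms, hD x (hr.2 x hc)]
    | nonterminal A => rfl
  · ext w
    exact ⟨fun h => c1 _ _ h.1 h.2,
      fun h => ⟨c2 _ _ h, Gen.mem' D (fun r hr => hr.2) h (by simp)⟩⟩

lemma U.single {L : Set (List X)} (hK : ∀ r ∈ K.rules, r.output ≠ []) (h : U K a L)
    (p : X → Prop) : U K a {w ∈ L | ∀ x, w = [x] → p x} := by
  classical
  obtain ⟨N, S, R, fN, h1, h2, h3, rfl⟩ := h
  have hR := free_of hK h3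
  let fl : ContextFreeRule X N → Bool := fun r => decide (∃ B, r.output = [.nonterminal B])
  let R' : Set (ContextFreeRule X (N × Bool)) :=
    mr (fun A => (A, false)) id '' R ∪
      (fun r => ⟨(r.input, true), r.output.map (ms (fun A => (A, fl r)) id)⟩) ''
        {r ∈ R | ∀ x, r.output = [.terminal x] → p x}
  have idm : ∀ (b : Bool) (s : List (Symbol X N)),
      (s.map (ms (fun A => (A, b)) id)).map (ms Prod.fst id) = s := by
    intro b s
    rw [List.map_map]
    conv_rhs => rw [← List.map_id s]
    exact List.map_congr_left fun c _ => by cases c <;> rfl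
  have c1 : ∀ s w, Gen R s w → Gen R' (s.map (ms (fun A => (A, false)) id)) w := fun s w h =>
    h.map _ fun r hr => Or.inl ⟨r, hr, rfl⟩
  have c2 : ∀ s w, Gen R' s w → Gen R (s.map (ms Prod.fst id)) w := fun s w h =>
    h.map _ (by
      rintro _ (⟨r, hr, rfl⟩ | ⟨r, hr, rfl⟩)
      · simpa only [mr, idm] using hr
      · simpa only [mr, idm] using hr.1)
  have c3 : ∀ s w, Gen R s w → ∀ A, s = [.nonterminal A] → (∀ x, w = [x] → p x) →
      Gen R' [.nonterminal (A, true)] w := by
    intro s w h
    induction h with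
    | nil => simp
    | term x _ ih => simp
    | @nt r u s w hr h0 h4 ih1 _ =>
      intro A hA hp
      simp only [List.cons.injEq, Symbol.nonterminal.injEq] at hA
      obtain ⟨rfl, rfl⟩ := hA
      cases h4
      rw [List.append_nil] at hp ⊢
      refine Gen.single.mpr ⟨_, Or.inr ⟨r, ⟨hr, fun x hx => hp x ?_⟩, rfl⟩, rfl, ?_⟩
      · rw [hx] at h0
        cases h0 with
        | term _ h5 => cases h5; rfl
      · by_cases hB : ∃ B, r.output = [.nonterminal B]
        · have h5 : fl r = true := by simp only [fl, hB, decide_true]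
          obtain ⟨B, hB⟩ := hB
          simp only [h5, hB]
          exact ih1 B hB hp
        · have h5 : fl r = false := by simp only [fl, hB, decide_false]
          simp only [h5]
          exact c1 _ _ h0
  have c4 : ∀ s w, Gen R' s w → ∀ A x, s = [.nonterminal (A, true)] → w = [x] → p x := by
    intro s w h
    induction h with
    | nil => simp
    | term x _ ih => simp
    | @nt r' u s w hr' h0 h4 ih1 _ =>
      intro A x hA hw
      simp only [List.cons.injEq, Symbol.nonterminal.injEq] at hA
      obtain ⟨hA, rfl⟩ := hA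
      cases h4
      rw [List.append_nil] at hw
      rcases hr' with ⟨r, hr, rfl⟩ | ⟨r, hr, rfl⟩
      · simp [mr] at hA
      · by_cases hB : ∃ B, r.output = [.nonterminal B]
        · have h5 : fl r = true := by simp only [fl, hB, decide_true]
          obtain ⟨B, hB⟩ := hB
          exact ih1 B x (by simp only [h5, hB]; rfl) hw
        · have h5 := c2 _ _ h0
          simp only [idm, hw] at h5
          have h6 := h5.len hR
          have h7 := List.length_pos_of_ne_nil (hR r hr.1)
          obtain ⟨c, hc⟩ := List.length_eq_one_iff.mp (le_antisymm h6 h7)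
          cases c with
          | nonterminal B => exact absurd ⟨B, hc⟩ hB
          | terminal y =>
            have h8 := h5.mem (x := y) (by simp [hc])
            rw [List.mem_singleton] at h8
            exact h8 ▸ hr.2 y hc
  refine ⟨N × Bool, (S, true), R', fN ∘ Prod.fst,
    (h1.image _).union ((h1.subset fun r hr => hr.1).image _), h2, ?_, ?_⟩
  · rintro _ (⟨r, hr, rfl⟩ | ⟨r, hr, rfl⟩)
    · convert h3 r hr using 1
      simp only [mr, List.map_map]
      congr 1
      exact List.map_congr_left fun c _ => by cases c <;> rfl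
    · convert h3 r hr.1 using 1
      simp only [mr, List.map_map]
      congr 1
      exact List.map_congr_left fun c _ => by cases c <;> rfl
  · ext w
    exact ⟨fun h => c3 _ _ h.1 S rfl h.2, fun h => ⟨c2 _ _ h, fun x hx => c4 _ _ h S x rfl hx⟩⟩

lemma line_eq {α ι : Type} (l l' : Combinatorics.Line α ι) {s s' t t' : α} (h1 : l' s = l t)
    (h2 : l' s' = l t') (h : s ≠ s') : l' = l ∧ s = t := by
  have key : ∀ i, l'.idxFun i = none → l.idxFun i = none ∧ s = t ∧ s' = t' := by
    intro i hi
    have a1 := congrFun h1 i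
    have a2 := congrFun h2 i
    cases hl : l.idxFun i with
    | none => simp [hi, hl] at a1 a2; exact ⟨rfl, a1, a2⟩
    | some z => simp [hi, hl] at a1 a2; exact absurd (a1.trans a2.symm) h
  obtain ⟨i, hi⟩ := l'.proper
  obtain ⟨-, rfl, rfl⟩ := key i hi
  refine ⟨?_, rfl⟩
  have : l'.idxFun = l.idxFun := by
    funext j
    cases hl' : l'.idxFun j with
    | none => exact (key j hl').1.symm
    | some z =>
      have a1 := congrFun h1 j
      have a2 := congrFun h2 j
      cases hl : l.idxFun j with
      | none => simp [hl', hl] at a1 a2; exact absurd (a1.symm.trans a2) h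
      | some y => simp [hl', hl] at a1; rw [a1]
  cases l; cases l'; cases this; rfl

theorem main {T' : Type} [Finite T] (G : ContextFreeGrammar T') (g : T') (H : ContextFreeGrammar T)
    (hG : ∀ r ∈ G.rules, r.output ≠ []) (hH : ∀ r ∈ H.rules, r.output ≠ [])
    (hyp : ∀ L : Set (List ℕ), U G g L → ∃ (N : Type) (S : N) (R : Set (ContextFreeRule ℕ N))
      (fN : N → H.NT) (fT : ℕ → T), R.Finite ∧ fN S = H.initial ∧
        (∀ r ∈ R, mr fN fT r ∈ H.rules) ∧ L = {w | Gen R [.nonterminal S] w}) :
    ∃ c : T, ∀ L : Set (List ℕ), U G g L → U H c L := by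
  classical
  by_contra hc
  push Not at hc
  choose L hL1 hL2 using hc
  choose n0 hn0 using fun c => (hL1 c).bound
  obtain ⟨n, hn⟩ := (Set.finite_range n0).bddAbove
  have hb : ∀ c, ∀ w ∈ L c, ∀ x ∈ w, x < n + 1 := fun c w hw x hx =>
    Nat.lt_succ_of_le ((hn0 c w hw x hx).trans (hn ⟨c, rfl⟩))
  obtain ⟨ι, _, hι⟩ := Combinatorics.Line.exists_mono_in_high_dimension (T × Fin (n+1) × Bool) T
  obtain ⟨enc, henc⟩ := exists_injective_nat (ι → T × Fin (n+1) × Bool)
  have : Finite (Combinatorics.Line (T × Fin (n+1) × Bool) ι) :=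
    Finite.of_injective Combinatorics.Line.idxFun (by
      rintro ⟨a, _⟩ ⟨b, _⟩ h
      cases h; rfl)
  let gg : Combinatorics.Line (T × Fin (n+1) × Bool) ι × T → Bool → ℕ → ℕ :=
    fun q b x => enc (q.1 (q.2, Fin.ofNat (n+1) x, b))
  obtain ⟨N, S, R, fN, fT, h1, h2, h3, h4⟩ :=
    hyp _ (U.union fun q => (hL1 q.2).mark hG (gg q))
  obtain ⟨l, c, hl⟩ := hι fun v => fT (enc v)
  have h5 := (U.restrict (a := c) S R fN fT h1 h2 h3 {y | ∃ z, y = enc (l z) ∧ z.1 = c}
    (by rintro _ ⟨z, rfl, -⟩; exact hl z)).single hH (fun y => [y] ∈ mk (gg (l, c)) true '' L c)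
  have h6 : {w ∈ {w | Gen R [.nonterminal S] w ∧ ∀ x ∈ w, x ∈ {y | ∃ z, y = enc (l z) ∧ z.1 = c}} |
      ∀ x, w = [x] → [x] ∈ mk (gg (l, c)) true '' L c} = mk (gg (l, c)) true '' L c := by
    ext w
    constructor
    · rintro ⟨⟨a1, a2⟩, a3⟩
      have a4 : w ∈ {w | Gen R [.nonterminal S] w} := a1
      rw [← h4] at a4
      obtain ⟨⟨l', c'⟩, u, hu, rfl⟩ := Set.mem_iUnion.mp a4
      match u, hu with
      | [], hu => exact absurd rfl ((hL1 c').ne_nil hG _ hu)
      | [x], hu => exact a3 _ rfl
      | x :: y :: u, hu =>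
        obtain ⟨z, b1, b2⟩ := a2 (gg (l', c') true x) (by simp [mk])
        obtain ⟨z', b3, -⟩ := a2 (gg (l', c') false y) (by simp [mk])
        obtain ⟨rfl, rfl⟩ := line_eq l l' (henc b1) (henc b3) (by simp)
        cases b2
        exact ⟨_, hu, rfl⟩
    · intro hw
      have a4 : w ∈ ⋃ q, mk (gg q) true '' L q.2 := Set.mem_iUnion.mpr ⟨(l, c), hw⟩
      rw [h4] at a4
      refine ⟨⟨a4, ?_⟩, fun x hx => hx ▸ hw⟩
      obtain ⟨u, -, rfl⟩ := hw
      intro y hy
      cases u with
      | nil => simp [mk] at hy
      | cons x u =>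
        simp only [mk, List.mem_cons, List.mem_map] at hy
        rcases hy with rfl | ⟨x', -, rfl⟩
        · exact ⟨_, rfl, rfl⟩
        · exact ⟨_, rfl, rfl⟩
  rw [h6] at h5
  have hinj : Function.Injective fun z => enc (l z) := by
    intro z z' h
    obtain ⟨i, hi⟩ := l.proper
    simpa [hi] using congrFun (henc h) i
  let dec : ℕ → ℕ := Function.extend (fun z => enc (l z)) (fun z => (z.2.1 : ℕ)) (fun _ => 0)
  have hdec : ∀ b x, x < n + 1 → dec (gg (l, c) b x) = x := by
    intro b x hx
    have := hinj.extend_apply (fun z => (z.2.1 : ℕ)) (fun _ => 0) (c, Fin.ofNat (n+1) x, b)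
    refine this.trans ?_
    simp [Nat.mod_eq_of_lt hx]
  have h7 := h5.mark hH (fun _ => dec)
  have h8 : ∀ w ∈ L c, mk (fun _ => dec) true (mk (gg (l, c)) true w) = w := by
    intro w hw
    cases w with
    | nil => rfl
    | cons x u =>
      simp only [mk, List.map_map]
      rw [hdec _ _ (hb c _ hw x (by simp))]
      congr 1
      conv_rhs => rw [← List.map_id u]
      exact List.map_congr_left fun y hy => hdec _ _ (hb c _ hw y (by simp [hy]))
  rw [Set.image_image, Set.image_congr h8, Set.image_id'] at h7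
  exact hL2 c h7

end Pool.Agent.H.MP_8f9e48_lc
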